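import Mathlib
import Pool.Agent.Results.MP_ff4775_nt.DivergentAsymptotics

set_option autoImplicit false

/-!
`Ω`-divergence of the non-periodic E-sequences with `b_n > n log_2 3` infinitely often.
-/

namespace Pool.Agent.Results.MP_eea90e_nt.OmegaDivergence

open Finset Filter Topology

/-- One step of the odd part map: `(3 x + 1) / 2 ^ v`, where `2 ^ v` is the exact power of `2`
dividing `3 x + 1`. -/
def S (x : ℕ) : ℕ := (3 * x + 1) / 2 ^ padicValNat 2 (3 * x + 1)

/-- The E-sequence of `x`, indexed by `n ≥ 1`: with `x_0 = x` and `x_n = S x_{n-1}`, its `n`-th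
term is the exponent of `2` in `3 x_{n-1} + 1`. -/
def eseq (x n : ℕ) : ℕ := padicValNat 2 (3 * S^[n - 1] x + 1)

/-- The sequence `(a_n)_{n ≥ 1}` is the E-sequence of `x`. -/
def ConvergesTo (a : ℕ → ℕ) (x : ℕ) : Prop := ∀ n, 1 ≤ n → a n = eseq x n

/-- The sequence `(a_n)_{n ≥ 1}` is the E-sequence of no odd positive integer. -/
def OmegaDivergent (a : ℕ → ℕ) : Prop := ∀ x, Odd x → ¬ ConvergesTo a x

/-- The sequence `(a_n)_{n ≥ 1}` is periodic, eventually periodic sequences included. -/
def Periodic (a : ℕ → ℕ) : Prop := ∃ l r, 1 ≤ r ∧ ∀ n, l < n → a (n + r) = a n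

/-- `b_n = a_1 + ... + a_n` -/
def b (a : ℕ → ℕ) (n : ℕ) : ℕ := ∑ i ∈ Icc 1 n, a i

/-- `B_n = ∑_{i < n} 3 ^ (n - 1 - i) 2 ^ (b_i)` -/
def B (a : ℕ → ℕ) (n : ℕ) : ℕ := ∑ i ∈ range n, 3 ^ (n - 1 - i) * 2 ^ b a i

open Pool.Agent.Results.MP_ff4775_nt.DivergentAsymptotics (T odd)

/-! ### the map `S` and the map `T` -/

theorem odd_S (x : ℕ) : Odd (S x) := by
  have h0 : 3 * x + 1 ≠ 0 := by omega
  have h := Nat.not_dvd_ordCompl Nat.prime_two h0
  rw [Nat.factorization_def _ Nat.prime_two] at h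
  rw [← Nat.not_even_iff_odd, even_iff_two_dvd]
  exact h

theorem S_mul (x : ℕ) : 2 ^ padicValNat 2 (3 * x + 1) * S x = 3 * x + 1 := by
  unfold S
  exact Nat.mul_div_cancel' pow_padicValNat_dvd

theorem odd_iter {x : ℕ} (hx : Odd x) (n : ℕ) : Odd (S^[n] x) := by
  cases n with
  | zero => exact hx
  | succ n => rw [Function.iterate_succ_apply']; exact odd_S _

theorem one_le_val {x : ℕ} (hx : Odd x) : 1 ≤ padicValNat 2 (3 * x + 1) := by
  apply one_le_padicValNat_of_dvd (by omega)
  obtain ⟨k, rfl⟩ := hx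
  exact ⟨3 * k + 2, by ring⟩

theorem odd_add (j k : ℕ) (n : ℤ) : odd (j + k) n = odd j n + odd k (T^[j] n) := by
  induction k with
  | zero => simp [odd]
  | succ k ih =>
    have e : ∀ m : ℤ, odd (k + 1) m = odd k m + if T^[k] m % 2 = 1 then 1 else 0 := by
      intro m
      unfold odd
      rw [range_add_one, filter_insert]
      split_ifs with h
      · rw [card_insert_of_notMem (by simp)]
      · rfl
    have e' : odd (j + (k + 1)) n = odd (j + k) n + if T^[j + k] n % 2 = 1 then 1 else 0 := by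
      rw [← add_assoc]
      unfold odd
      rw [range_add_one, filter_insert]
      split_ifs with h
      · rw [card_insert_of_notMem (by simp)]
      · rfl
    rw [e', e, ih, ← Function.iterate_add_apply, add_comm k j]
    ring

/-- halving -/
theorem halve (j : ℕ) : ∀ m : ℤ, T^[j] (2 ^ j * m) = m ∧ odd j (2 ^ j * m) = 0 := by
  induction j with
  | zero => intro m; simp [odd]
  | succ j ih =>
    intro m
    have h1 : T (2 ^ (j + 1) * m) = 2 ^ j * m := by
      unfold T
      have e : (2 : ℤ) ^ (j + 1) * m = 2 * (2 ^ j * m) := by ring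
      rw [if_pos (by rw [e]; omega), e]
      omega
    refine ⟨by rw [Function.iterate_succ_apply, h1, (ih m).1], ?_⟩
    rw [add_comm j 1, odd_add, Function.iterate_one]
    have e : (2 : ℤ) ^ (1 + j) * m = 2 ^ (j + 1) * m := by ring
    rw [e, h1, (ih m).2]
    have e2 : (2 : ℤ) ^ (j + 1) * m = 2 * (2 ^ j * m) := by ring
    unfold odd
    rw [range_one, filter_singleton, if_neg (by
      simp only [Function.iterate_zero, id_eq]; rw [e2]; omega)]
    simp

theorem step {y : ℕ} (hy : Odd y) :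
    T^[padicValNat 2 (3 * y + 1)] (y : ℤ) = (S y : ℕ) ∧ odd (padicValNat 2 (3 * y + 1)) y = 1 := by
  have h1 := one_le_val hy
  have h2 := S_mul y
  obtain ⟨v, hv⟩ : ∃ v, padicValNat 2 (3 * y + 1) = v + 1 := ⟨_, (Nat.sub_add_cancel h1).symm⟩
  rw [hv] at h2 ⊢
  have hyz : (y : ℤ) % 2 = 1 := by
    have := Nat.odd_iff.1 hy
    omega
  have hT : T (y : ℤ) = 2 ^ v * (S y : ℕ) := by
    unfold T
    rw [if_neg (by omega)]
    have h3 : (2 : ℤ) ^ (v + 1) * (S y : ℕ) = 3 * y + 1 := by exact_mod_cast h2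
    have h4 : (2 : ℤ) ^ (v + 1) * (S y : ℕ) = 2 * (2 ^ v * (S y : ℕ)) := by ring
    omega
  refine ⟨by rw [Function.iterate_succ_apply, hT, (halve v _).1], ?_⟩
  rw [add_comm v 1, odd_add, Function.iterate_one, hT, (halve v _).2]
  unfold odd
  rw [range_one, filter_singleton, if_pos (by simpa using hyz)]
  simp

theorem b_succ (a : ℕ → ℕ) (n : ℕ) : b a (n + 1) = b a n + a (n + 1) := by
  unfold b
  rw [Finset.sum_Icc_succ_top (by omega)]

theorem B_succ (a : ℕ → ℕ) (n : ℕ) : B a (n + 1) = 3 * B a n + 2 ^ b a n := by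
  unfold B
  rw [sum_range_succ, mul_sum]
  congr 1
  · refine sum_congr rfl fun i hi => ?_
    have hi' := mem_range.1 hi
    have e : n + 1 - 1 - i = (n - 1 - i) + 1 := by omega
    rw [e, pow_succ]
    ring
  · simp

/-- the iterates of `S` are iterates of `T` -/
theorem iter_S {a : ℕ → ℕ} {x : ℕ} (hx : Odd x) (ha : ConvergesTo a x) (n : ℕ) :
    T^[b a n] (x : ℤ) = (S^[n] x : ℕ) ∧ odd (b a n) x = n := by
  induction n with
  | zero => simp [b, odd]
  | succ n ih =>
    have hs := step (odd_iter hx n)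
    have h1 : a (n + 1) = padicValNat 2 (3 * S^[n] x + 1) := ha (n + 1) (by omega)
    rw [b_succ, h1]
    refine ⟨?_, ?_⟩
    · rw [add_comm, Function.iterate_add_apply, ih.1, hs.1, Function.iterate_succ_apply']
    · rw [odd_add, ih.1, ih.2, hs.2]

/-- the exact formula for the iterates -/
theorem formula {a : ℕ → ℕ} {x : ℕ} (ha : ConvergesTo a x) (n : ℕ) :
    2 ^ b a n * S^[n] x = 3 ^ n * x + B a n := by
  induction n with
  | zero => simp [b, B]
  | succ n ih =>
    have h1 : a (n + 1) = padicValNat 2 (3 * S^[n] x + 1) := ha (n + 1) (by omega)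
    have h2 := S_mul (S^[n] x)
    rw [b_succ, h1, Function.iterate_succ_apply', pow_add, mul_assoc, h2, B_succ]
    calc 2 ^ b a n * (3 * S^[n] x + 1) = 3 * (2 ^ b a n * S^[n] x) + 2 ^ b a n := by ring
      _ = _ := by rw [ih]; ring

theorem le_b {a : ℕ → ℕ} {x : ℕ} (hx : Odd x) (ha : ConvergesTo a x) (n : ℕ) : n ≤ b a n := by
  induction n with
  | zero => omega
  | succ n ih =>
    have h1 : a (n + 1) = padicValNat 2 (3 * S^[n] x + 1) := ha (n + 1) (by omega)
    have h2 := one_le_val (odd_iter hx n)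
    rw [b_succ]
    omega

/-- a non-periodic E-sequence has an injective trajectory -/
theorem injective_of {a : ℕ → ℕ} {x : ℕ} (ha : ConvergesTo a x) (hnp : ¬ Periodic a) :
    Function.Injective (fun n => S^[n] x) := by
  have key : ∀ i j : ℕ, i < j → S^[i] x = S^[j] x → False := by
    intro i j hij he
    apply hnp
    refine ⟨i, j - i, by omega, fun n hn => ?_⟩
    rw [ha (n + (j - i)) (by omega), ha n (by omega)]
    unfold eseq
    have e1 : n + (j - i) - 1 = (n - 1 - i) + j := by omega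
    have e2 : n - 1 = (n - 1 - i) + i := by omega
    have : S^[n + (j - i) - 1] x = S^[n - 1] x := by
      rw [e1, Function.iterate_add_apply, ← he, ← Function.iterate_add_apply, ← e2]
    rw [this]
  intro i j he
  by_contra hne
  rcases lt_or_gt_of_ne hne with h1 | h1
  · exact key i j h1 he
  · exact key j i h1 he.symm

theorem T_pos {x : ℤ} (hx : 1 ≤ x) : 1 ≤ T x := by
  unfold T
  split_ifs with h <;> omega

theorem T_iter_pos {x : ℤ} (hx : 1 ≤ x) (k : ℕ) : 1 ≤ T^[k] x := by
  induction k with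
  | zero => exact hx
  | succ k ih => rw [Function.iterate_succ_apply']; exact T_pos ih

/-- the trajectory under `T` tends to infinity -/
theorem tendsto_T {a : ℕ → ℕ} {x : ℕ} (hx : Odd x) (ha : ConvergesTo a x) (hnp : ¬ Periodic a) :
    Tendsto (fun k => |T^[k] (x : ℤ)|) atTop atTop := by
  have hx1 : (1 : ℤ) ≤ x := by
    have := hx.pos
    omega
  have hinjS := injective_of ha hnp
  -- the orbit under `T` is infinite
  have hinf : (Set.range fun k => T^[k] (x : ℤ)).Infinite := by
    have h1 : (Set.range fun n => ((S^[n] x : ℕ) : ℤ)).Infinite := by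
      apply Set.infinite_range_of_injective
      intro i j hij
      have hij' : ((S^[i] x : ℕ) : ℤ) = ((S^[j] x : ℕ) : ℤ) := hij
      exact hinjS (show S^[i] x = S^[j] x by exact_mod_cast hij')
    apply h1.mono
    rintro _ ⟨n, rfl⟩
    exact ⟨b a n, (iter_S hx ha n).1⟩
  have hinjT : Function.Injective (fun k => T^[k] (x : ℤ)) := by
    have key : ∀ i j : ℕ, i < j → T^[i] (x : ℤ) = T^[j] (x : ℤ) → False := by
      intro i j hij he
      apply hinf
      apply Set.Finite.subset ((Finset.range j).image fun k => T^[k] (x : ℤ)).finite_toSet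
      rintro _ ⟨k, rfl⟩
      have hk : ∀ k : ℕ, ∃ l < j, T^[l] (x : ℤ) = T^[k] (x : ℤ) := by
        intro k
        induction k using Nat.strong_induction_on with
        | _ k ih =>
          rcases lt_or_ge k j with h | h
          · exact ⟨k, h, rfl⟩
          · obtain ⟨l, hl, hl'⟩ := ih (k - (j - i)) (by omega)
            refine ⟨l, hl, ?_⟩
            rw [hl']
            have e1 : k - (j - i) = (k - j) + i := by omega
            have e2 : k = (k - j) + j := by omega
            rw [e1, Function.iterate_add_apply, he, ← Function.iterate_add_apply, ← e2]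
      obtain ⟨l, hl, hl'⟩ := hk k
      simp only [coe_image, Set.mem_image, coe_range, Set.mem_Iio]
      exact ⟨l, hl, hl'⟩
    intro i j he
    by_contra hne
    rcases lt_or_gt_of_ne hne with h1 | h1
    · exact key i j h1 he
    · exact key j i h1 he.symm
  have hN : Function.Injective (fun k => (T^[k] (x : ℤ)).toNat) := by
    intro i j hij
    have h1 := T_iter_pos hx1 i
    have h2 := T_iter_pos hx1 j
    apply hinjT
    simp only at hij ⊢
    omega
  have h3 := hN.nat_tendsto_atTop
  have h4 : Tendsto (fun k => (((T^[k] (x : ℤ)).toNat : ℕ) : ℤ)) atTop atTop :=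
    tendsto_natCast_atTop_atTop.comp h3
  refine h4.congr fun k => ?_
  have h1 := T_iter_pos hx1 k
  rw [abs_of_nonneg (by omega)]
  omega

/-- the main facts -/
theorem main {a : ℕ → ℕ} {x : ℕ} (hx : Odd x) (ha : ConvergesTo a x) (hnp : ¬ Periodic a) :
    ∃ w : ℝ, 0 < w ∧
      Tendsto (fun n : ℕ => (2 : ℝ) ^ b a n * S^[n] x / 3 ^ n) atTop (𝓝 w) := by
  obtain ⟨A, hA⟩ := Pool.Agent.Results.MP_ff4775_nt.DivergentAsymptotics.result.1 0.951
    Pool.Agent.Results.MP_ff4775_nt.DivergentAsymptotics.result.2 (by norm_num)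
  obtain ⟨w, hw0, hw, -⟩ := hA x (tendsto_T hx ha hnp)
  have hb : Tendsto (b a) atTop atTop :=
    tendsto_atTop_mono (le_b hx ha) tendsto_id
  have h1 := hw.comp hb
  have h2 : Tendsto (fun n : ℕ => (2 : ℝ) ^ b a n * S^[n] x / 3 ^ n) atTop (𝓝 w) := by
    refine h1.congr fun n => ?_
    simp only [Function.comp]
    rw [(iter_S hx ha n).1, (iter_S hx ha n).2]
    push_cast
    rfl
  refine ⟨w, lt_of_le_of_ne ?_ (Ne.symm hw0), h2⟩
  exact ge_of_tendsto' h2 fun n => by positivity

theorem S_tendsto {a : ℕ → ℕ} {x : ℕ} (ha : ConvergesTo a x) (hnp : ¬ Periodic a) :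
    Tendsto (fun n => S^[n] x) atTop atTop := (injective_of ha hnp).nat_tendsto_atTop

/-- **Result.** Let `(a_n)_{n ≥ 1}` be a non-periodic sequence of natural numbers.
(1) If `b_n > n log_2 3` for infinitely many `n`, then it is `Ω`-divergent (Q1).
(2) If it is the E-sequence of the odd number `x`, then there is a real number `w > 0` such that
`n log_2 3 - b_n - log_2 x_n` tends to `- log_2 w` and `B_n / 3 ^ n` tends to `w - x`; in particular
`n log_2 3 - b_n` tends to infinity. -/
theorem result (a : ℕ → ℕ) (hnp : ¬ Periodic a) :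
    ((∃ᶠ n : ℕ in atTop, (n : ℝ) * Real.logb 2 3 < b a n) → OmegaDivergent a) ∧
    (∀ x : ℕ, Odd x → ConvergesTo a x → ∃ w : ℝ, 0 < w ∧
      Tendsto (fun n : ℕ => (n : ℝ) * Real.logb 2 3 - b a n - Real.logb 2 (S^[n] x)) atTop
        (𝓝 (-Real.logb 2 w)) ∧
      Tendsto (fun n : ℕ => (B a n : ℝ) / 3 ^ n) atTop (𝓝 (w - x)) ∧
      Tendsto (fun n : ℕ => (n : ℝ) * Real.logb 2 3 - b a n) atTop atTop) := by
  have key : ∀ x : ℕ, Odd x → ConvergesTo a x → ∃ w : ℝ, 0 < w ∧
      Tendsto (fun n : ℕ => (n : ℝ) * Real.logb 2 3 - b a n - Real.logb 2 (S^[n] x)) atTop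
        (𝓝 (-Real.logb 2 w)) ∧
      Tendsto (fun n : ℕ => (B a n : ℝ) / 3 ^ n) atTop (𝓝 (w - x)) ∧
      Tendsto (fun n : ℕ => (n : ℝ) * Real.logb 2 3 - b a n) atTop atTop := by
    intro x hx ha
    obtain ⟨w, hw, hlim⟩ := main hx ha hnp
    have hpos : ∀ n, (0 : ℝ) < S^[n] x := fun n => by
      have := (odd_iter hx n).pos
      exact_mod_cast this
    have hlog : Tendsto (fun n : ℕ => (n : ℝ) * Real.logb 2 3 - b a n - Real.logb 2 (S^[n] x))
        atTop (𝓝 (-Real.logb 2 w)) := by
      have h1 : Tendsto (fun n : ℕ => Real.logb 2 ((2 : ℝ) ^ b a n * S^[n] x / 3 ^ n)) atTop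
          (𝓝 (Real.logb 2 w)) := by
        unfold Real.logb
        exact (hlim.log hw.ne').div_const _
      refine h1.neg.congr fun n => ?_
      have h2 := hpos n
      rw [Real.logb_div (by positivity) (by positivity), Real.logb_mul (by positivity) h2.ne',
        ← Real.rpow_natCast, Real.logb_rpow (by norm_num) (by norm_num), Real.logb_pow]
      ring
    refine ⟨w, hw, hlog, ?_, ?_⟩
    · refine (hlim.sub_const (x : ℝ)).congr fun n => ?_
      have h3 : (2 : ℝ) ^ b a n * S^[n] x = 3 ^ n * x + B a n := by exact_mod_cast formula ha n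
      rw [h3]
      field_simp
      ring
    · have h4 : Tendsto (fun n : ℕ => Real.logb 2 ((S^[n] x : ℕ) : ℝ)) atTop atTop := by
        apply (Real.tendsto_logb_atTop (by norm_num)).comp
        exact tendsto_natCast_atTop_atTop.comp (S_tendsto ha hnp)
      refine (hlog.add_atTop h4).congr fun n => ?_
      ring
  refine ⟨fun hfreq x hx ha => ?_, key⟩
  obtain ⟨w, hw, -, -, h⟩ := key x hx ha
  have h1 := h.eventually_ge_atTop 0
  obtain ⟨n, hn1, hn2⟩ := (hfreq.and_eventually h1).exists
  linarith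

end Pool.Agent.Results.MP_eea90e_nt.OmegaDivergence
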